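import Pool.Agent.Lib.MP_688fd0_co.TE.Iface2

/-!
# Theorem E, module KER (helper47)
-/

set_option linter.unusedSectionVars false

namespace Pool.Agent.Lib.MP_688fd0_co.TE.H47

open Pool.Agent.Lib.MP_688fd0_co.TE

universe u

section kernels

variable {G : Type u} [Group G] [Fintype G] [DecidableEq G]

theorem sum_ind_mem (S : Finset G) : ∑ z : G, ind (z ∈ S) = (S.card : ℝ) := by
  classical
  have h : ∀ z : G, ind (z ∈ S) = if z ∈ S then (1 : ℝ) else 0 := by
    intro z
    unfold ind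
    congr
  simp only [h, Finset.sum_ite_mem, Finset.univ_inter, Finset.sum_const, nsmul_eq_mul, mul_one]

theorem UM_row (S : Finset G) (hS : S.Nonempty) (x : G) : ∑ y, UM S x y = 1 := by
  unfold UM
  rw [← Finset.sum_div]
  have h1 : ∑ y : G, ind (x⁻¹ * y ∈ S) = ∑ z : G, ind (z ∈ S) :=
    Fintype.sum_equiv (Equiv.mulLeft x⁻¹) _ _ (fun y => rfl)
  rw [h1, sum_ind_mem]
  exact div_self (by exact_mod_cast hS.card_pos.ne')

theorem UM_col (S : Finset G) (hS : S.Nonempty) (y : G) : ∑ x, UM S x y = 1 := by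
  unfold UM
  rw [← Finset.sum_div]
  have h1 : ∑ x : G, ind (x⁻¹ * y ∈ S) = ∑ z : G, ind (z ∈ S) :=
    Fintype.sum_equiv ((Equiv.inv G).trans (Equiv.mulRight y)) _ _ (fun x => rfl)
  rw [h1, sum_ind_mem]
  exact div_self (by exact_mod_cast hS.card_pos.ne')

theorem UM_nn (S : Finset G) (x y : G) : 0 ≤ UM S x y :=
  div_nonneg (ind_nonneg _) (Nat.cast_nonneg _)

theorem UM_DS (S : Finset G) (hS : S.Nonempty) : DS (UM S) :=
  ⟨UM_nn S, UM_row S hS, UM_col S hS⟩

theorem UM_Inv (S : Finset G) : Inv (UM S) := by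
  intro g x y
  unfold UM
  congr 2
  rw [mul_inv_rev, mul_assoc, inv_mul_cancel_left]

theorem UM_le (S : Finset G) (x y : G) : UM S x y ≤ 1 / (S.card : ℝ) :=
  div_le_div_of_nonneg_right (ind_le_one _) (Nat.cast_nonneg _)

theorem DS_mul {M N : Matrix G G ℝ} (hM : DS M) (hN : DS N) : DS (M * N) := by
  refine ⟨fun x y => ?_, fun x => ?_, fun y => ?_⟩
  · rw [Matrix.mul_apply]
    exact Finset.sum_nonneg fun z _ => mul_nonneg (hM.nn _ _) (hN.nn _ _)
  · simp only [Matrix.mul_apply]
    rw [Finset.sum_comm]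
    simp only [← Finset.mul_sum, hN.row, mul_one, hM.row]
  · simp only [Matrix.mul_apply]
    rw [Finset.sum_comm]
    simp only [← Finset.sum_mul, hM.col, one_mul, hN.col]

theorem DS_one : DS (1 : Matrix G G ℝ) := by
  refine ⟨fun x y => ?_, fun x => ?_, fun y => ?_⟩
  · rw [Matrix.one_apply]; split <;> norm_num
  · simp [Matrix.one_apply]
  · simp [Matrix.one_apply]

theorem Inv_one : Inv (1 : Matrix G G ℝ) := by
  intro g x y
  simp [Matrix.one_apply]

theorem Inv_mul {M N : Matrix G G ℝ} (hM : Inv M) (hN : Inv N) : Inv (M * N) := by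
  intro g x y
  simp only [Matrix.mul_apply]
  exact (Fintype.sum_equiv (Equiv.mulLeft g) _ _ (fun z => by
    simp only [Equiv.coe_mulLeft]
    rw [hM, hN])).symm

theorem DS_pow {M : Matrix G G ℝ} (hM : DS M) (n : ℕ) : DS (M ^ n) := by
  induction n with
  | zero => rw [pow_zero]; exact DS_one
  | succ n ih => rw [pow_succ]; exact DS_mul ih hM

/-- a bound for the entries of a product: bounded times column stochastic -/
theorem le_mul_left {M N : Matrix G G ℝ} {a : ℝ} (hM : ∀ x y, M x y ≤ a) (hN : DS N) (x y : G) :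
    (M * N) x y ≤ a := by
  rw [Matrix.mul_apply]
  calc ∑ z, M x z * N z y ≤ ∑ z, a * N z y :=
        Finset.sum_le_sum fun z _ => mul_le_mul_of_nonneg_right (hM x z) (hN.nn z y)
    _ = a := by rw [← Finset.mul_sum, hN.col, mul_one]

/-- a bound for the entries of a product: row stochastic times bounded -/
theorem le_mul_right {M N : Matrix G G ℝ} {a : ℝ} (hM : DS M) (hN : ∀ x y, N x y ≤ a) (x y : G) :
    (M * N) x y ≤ a := by
  rw [Matrix.mul_apply]
  calc ∑ z, M x z * N z y ≤ ∑ z, M x z * a :=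
        Finset.sum_le_sum fun z _ => mul_le_mul_of_nonneg_left (hN z y) (hM.nn x z)
    _ = a := by rw [← Finset.sum_mul, hM.row, one_mul]

theorem WM_DS (B C : Finset G) (hB : B.Nonempty) (hC : C.Nonempty) (τ : Bool) :
    DS (WM B C τ) := by
  have h1 := UM_DS B hB
  have h2 := UM_DS C hC
  cases τ
  · exact h1
  · have h3 : WM B C true = (1 / 2 : ℝ) • (UM B + UM C) := rfl
    rw [h3]
    refine ⟨fun x y => ?_, fun x => ?_, fun y => ?_⟩
    · rw [Matrix.smul_apply, Matrix.add_apply, smul_eq_mul]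
      have := h1.nn x y
      have := h2.nn x y
      linarith
    · simp only [Matrix.smul_apply, Matrix.add_apply, smul_eq_mul]
      rw [← Finset.mul_sum, Finset.sum_add_distrib, h1.row, h2.row]
      norm_num
    · simp only [Matrix.smul_apply, Matrix.add_apply, smul_eq_mul]
      rw [← Finset.mul_sum, Finset.sum_add_distrib, h1.col, h2.col]
      norm_num

theorem WM_Inv (B C : Finset G) (τ : Bool) : Inv (WM B C τ) := by
  cases τ
  · exact UM_Inv B
  · intro g x y
    have h3 : WM B C true = (1 / 2 : ℝ) • (UM B + UM C) := rfl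
    rw [h3, Matrix.smul_apply, Matrix.smul_apply, Matrix.add_apply, Matrix.add_apply,
      UM_Inv B g x y, UM_Inv C g x y]

theorem cO_or (B C : Finset G) (τ : Bool) (p : ℕ) : cO B C τ p = UM B ∨ cO B C τ p = WM B C τ := by
  unfold cO
  split
  · right; rfl
  · left; rfl

theorem cc_eq (c : Ctx G) (τ par : Bool) (p : ℕ) :
    c.cc τ par p = cO c.B c.C τ (p + if par then 0 else 1) := by
  unfold Ctx.cc
  cases par <;> rfl

theorem Kn_add (cc : ℕ → Matrix G G ℝ) (i m n : ℕ) :
    Kn cc i (m + n) = Kn cc i m * Kn cc (i + m) n := by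
  induction n with
  | zero => exact (Matrix.mul_one _).symm
  | succ n ih =>
    show Kn cc i (m + n) * cc (i + (m + n) + 1) = Kn cc i m * (Kn cc (i + m) n * cc (i + m + n + 1))
    rw [ih, Matrix.mul_assoc, add_assoc i m n]

theorem Kn_one (cc : ℕ → Matrix G G ℝ) (i : ℕ) : Kn cc i 1 = cc (i + 1) := by
  show (1 : Matrix G G ℝ) * cc (i + 0 + 1) = _
  rw [Matrix.one_mul]

theorem Kn_three (cc : ℕ → Matrix G G ℝ) (i : ℕ) :
    Kn cc i 3 = cc (i + 1) * cc (i + 2) * cc (i + 3) := by
  show (1 : Matrix G G ℝ) * cc (i + 0 + 1) * cc (i + 1 + 1) * cc (i + 2 + 1) = _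
  rw [Matrix.one_mul]

theorem Kn_pow (cc : ℕ → Matrix G G ℝ) (S : Matrix G G ℝ) (i : ℕ)
    (h : ∀ j, Kn cc (i + 3 * j) 3 = S) (u : ℕ) : Kn cc i (3 * u) = S ^ u := by
  induction u with
  | zero => exact (pow_zero S).symm
  | succ u ih =>
    rw [show 3 * (u + 1) = 3 * u + 3 by ring, Kn_add, ih, h u, pow_succ]

end kernels

theorem ker : KER_S.{u} := by
  intro G _ _ _ c τ par
  have hBne := c.hB.ne
  have hCne := c.hC.ne
  have hccDS : ∀ i, DS (c.cc τ par i) := by
    intro i
    rw [cc_eq]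
    rcases cO_or c.B c.C τ (i + if par then 0 else 1) with h | h
    · rw [h]; exact UM_DS _ hBne
    · rw [h]; exact WM_DS _ _ hBne hCne τ
  have hccInv : ∀ i, Inv (c.cc τ par i) := by
    intro i
    rw [cc_eq]
    rcases cO_or c.B c.C τ (i + if par then 0 else 1) with h | h
    · rw [h]; exact UM_Inv _
    · rw [h]; exact WM_Inv _ _ τ
  have hDS : ∀ i n, DS (c.K τ par i n) := by
    intro i n
    induction n with
    | zero => exact DS_one
    | succ n ih => exact DS_mul ih (hccDS _)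
  have hInv : ∀ i n, Inv (c.K τ par i n) := by
    intro i n
    induction n with
    | zero => exact Inv_one
    | succ n ih => exact Inv_mul ih (hccInv _)
  have hadd : ∀ i m n, c.K τ par i (m + n) = c.K τ par i m * c.K τ par (i + m) n :=
    fun i m n => Kn_add _ i m n
  have hone : ∀ i, c.K τ par i 1 = c.cc τ par (i + 1) := fun i => Kn_one _ i
  -- letters equal to `β`
  have hbeta : ∀ p, ¬ 3 ∣ (p + if par then 0 else 1) → c.cc τ par p = UM c.B := by
    intro p hp
    rw [cc_eq]
    unfold cO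
    rw [if_neg hp]
  have hbetale : ∀ p, ¬ 3 ∣ (p + if par then 0 else 1) → ∀ x y, c.cc τ par p x y ≤ 1 / c.b := by
    intro p hp x y
    rw [hbeta p hp]
    exact UM_le _ x y
  have h2 : ∀ i x y, c.K τ par i 2 x y ≤ 1 / c.b := by
    intro i x y
    rw [show (2 : ℕ) = 1 + 1 from rfl, hadd, hone, hone]
    by_cases h : 3 ∣ (i + 1 + if par then 0 else 1)
    · refine le_mul_right (hccDS _) (hbetale _ ?_) x y
      omega
    · exact le_mul_left (hbetale _ h) (hccDS _) x y
  have hfirst : ∀ n x y, 1 ≤ n → c.K τ par 0 n x y ≤ 1 / c.b := by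
    intro n x y hn
    obtain ⟨n, rfl⟩ : ∃ m, n = 1 + m := ⟨n - 1, by omega⟩
    rw [hadd, hone]
    exact le_mul_left (hbetale _ (by cases par <;> simp)) (hDS _ _) x y
  -- blocks
  obtain ⟨s, hs⟩ : ∃ s : ℕ, s = if par then 1 else 0 := ⟨_, rfl⟩
  have hblock : ∀ i, c.K τ par (s + 3 * i) 3 = SM c.B c.C τ := by
    intro i
    show Kn (c.cc τ par) (s + 3 * i) 3 = _
    rw [Kn_three, hbeta (s + 3 * i + 1) (by rw [hs]; cases par <;> simp <;> omega),
      hbeta (s + 3 * i + 3) (by rw [hs]; cases par <;> simp <;> omega)]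
    have h3 : c.cc τ par (s + 3 * i + 2) = WM c.B c.C τ := by
      rw [cc_eq]
      unfold cO
      rw [if_pos]
      rw [hs]; cases par <;> simp <;> omega
    rw [h3]
    rfl
  have hpow : ∀ i u, c.K τ par (s + 3 * i) (3 * u) = SM c.B c.C τ ^ u := by
    intro i u
    refine Kn_pow _ _ _ (fun j => ?_) u
    have := hblock (i + j)
    rw [show s + 3 * i + 3 * j = s + 3 * (i + j) by ring]
    exact this
  have hL0 : ∀ i n x y, c.L0 ≤ n → c.K τ par i n x y ≤ c.X * c.q τ := by
    intro i n x y hn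
    obtain ⟨k', hk'⟩ := c.hdiv
    have hL : c.L0 = 12 * k' + 4 := by
      unfold Ctx.L0
      rw [hk', Nat.mul_div_cancel_left k' (by positivity)]
    -- the first aligned start
    obtain ⟨r, j, hr, hrj⟩ : ∃ r j, r ≤ 3 ∧ i + r = s + 3 * j := by
      refine ⟨(s + 3 * (i + 1) - i) % 3, (i + (s + 3 * (i + 1) - i) % 3 - s) / 3, by omega, ?_⟩
      have : s ≤ 1 := by rw [hs]; split <;> omega
      omega
    obtain ⟨m, rfl⟩ : ∃ m, n = r + (3 * (4 * k') + m) := ⟨n - r - 3 * (4 * k'), by omega⟩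
    rw [hadd, hadd, hrj, hpow]
    refine le_mul_right (hDS _ _) (fun x y => le_mul_left (fun x y => ?_) (hDS _ _) x y) x y
    refine c.hsup τ (4 * k') x y ?_
    rw [hk']
    apply le_of_eq
    ring
  have hodd : c.K τ true 0 (6 * c.k + 1) = UM c.B * SM c.B c.C τ ^ (2 * c.k) := by
    have e1 : c.K τ true 0 (1 + 6 * c.k) = c.K τ true 0 1 * c.K τ true (0 + 1) (6 * c.k) :=
      Kn_add _ 0 1 (6 * c.k)
    rw [add_comm, e1]
    congr 1
    · show Kn (c.cc τ true) 0 1 = _
      rw [Kn_one, cc_eq]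
      rfl
    · rw [show 6 * c.k = 3 * (2 * c.k) by ring]
      refine Kn_pow _ _ _ (fun j => ?_) _
      rw [Kn_three, cc_eq, cc_eq, cc_eq]
      simp only [if_true, add_zero]
      unfold cO
      rw [if_neg (by omega), if_pos (by omega), if_neg (by omega)]
      rfl
  have heven : c.K τ false 0 (6 * c.k) = SM c.B c.C τ ^ (2 * c.k) := by
    rw [show 6 * c.k = 3 * (2 * c.k) by ring]
    refine Kn_pow _ _ _ (fun j => ?_) _
    rw [Kn_three, cc_eq, cc_eq, cc_eq]
    unfold cO
    rw [if_neg (by simp only [Bool.false_eq_true, if_false]; omega),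
      if_pos (by simp only [Bool.false_eq_true, if_false]; omega),
      if_neg (by simp only [Bool.false_eq_true, if_false]; omega)]
    rfl
  refine ⟨fun i n => ⟨hDS i n, hInv i n⟩, hadd, ?_, hL0, hfirst, ?_, ?_, hccDS, ?_, hodd, heven⟩
  · intro i n x y hn
    obtain ⟨n, rfl⟩ : ∃ m, n = 2 + m := ⟨n - 2, by omega⟩
    rw [hadd]
    exact le_mul_left (h2 i) (hDS _ _) x y
  · intro i n x y hn hin
    obtain ⟨n, rfl⟩ : ∃ m, n = m + 1 := ⟨n - 1, by omega⟩
    rw [hadd, hone]
    refine le_mul_right (hDS _ _) (hbetale _ ?_) x y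
    unfold Ctx.len at hin
    cases par
    · simp only [Bool.false_eq_true, if_false] at hin ⊢
      omega
    · simp only [if_true] at hin ⊢
      omega
  · intro p
    rw [cc_eq]
    exact cO_or _ _ _ _
  · intro x y h
    unfold Ctx.adm at h
    cases par
    · have := c.harE τ x y h
      rw [← heven] at this
      exact this
    · have := c.harO τ x y h
      rw [← hodd] at this
      exact this

end Pool.Agent.Lib.MP_688fd0_co.TE.H47
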